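import Mathlib

set_option autoImplicit false

open Polynomial Filter Topology

namespace Pool.Agent.Results.MP_f79668_an.LucasCounterexample

noncomputable section

/-! ### The notions of the problem -/

/-- `p` has only real zeros: every complex zero of `p` is real. In particular `p ≠ 0`. -/
def RealRooted (p : ℝ[X]) : Prop := ∀ z : ℂ, aeval z p = 0 → z.im = 0

/-- `T` is a hyperbolicity preserver: `T p` has only real zeros whenever `p` has only real zeros.
(As `RealRooted` excludes the zero polynomial, this also says that `T p ≠ 0` for such `p`.) -/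
def HyperbolicityPreserver (T : ℝ[X] →ₗ[ℝ] ℝ[X]) : Prop :=
  ∀ p, RealRooted p → RealRooted (T p)

/-- `T = ∑ Q_k(x) D^k`. -/
def Represents (Q : ℕ → ℝ[X]) (T : ℝ[X] →ₗ[ℝ] ℝ[X]) : Prop :=
  ∀ p : ℝ[X], T p = ∑ k ∈ Finset.range (p.natDegree + 1), Q k * derivative^[k] p

/-- Infinitely many of the coefficient polynomials are nonzero. -/
def InfiniteOrder (Q : ℕ → ℝ[X]) : Prop := {k : ℕ | Q k ≠ 0}.Infinite

/-- `deg Q_k ≤ deg Q_{k+1}` for every `k` with `Q_k ≠ 0` (and `deg 0 = ⊥`). -/
def IsMonotone (Q : ℕ → ℝ[X]) : Prop := ∀ k : ℕ, Q k ≠ 0 → (Q k).degree ≤ (Q (k + 1)).degree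

/-- Admissible bases: `deg B_k = k` and each `B_k` solves
`a_0(k) y + ∑_{j=1}^M a_j(x) y^{(j)} = 0`, with `M ≥ 1`, `a_M ≠ 0` and `a_1, …, a_M` independent
of `k`. (A sequence with `deg B_k = k` for all `k` is a basis of `ℝ[x]`.) -/
def Admissible (B : ℕ → ℝ[X]) : Prop :=
  (∀ k, (B k).degree = k) ∧
    ∃ M : ℕ, 1 ≤ M ∧ ∃ a : ℕ → ℝ[X], a M ≠ 0 ∧ ∃ a₀ : ℕ → ℝ,
      ∀ k, C (a₀ k) * B k + ∑ j ∈ Finset.Icc 1 M, a j * derivative^[j] (B k) = 0

/-- `T` is diagonal with respect to `B`, with eigenvalues `γ`. -/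
def DiagonalWith (B : ℕ → ℝ[X]) (γ : ℕ → ℝ) (T : ℝ[X] →ₗ[ℝ] ℝ[X]) : Prop :=
  ∀ k, T (B k) = γ k • B k

/-! ### Lucas polynomials -/

/-- The Lucas polynomials `2, x, x² + 2, x³ + 3x, …`. -/
def lucas : ℕ → ℝ[X]
  | 0 => 2
  | 1 => X
  | n + 2 => X * lucas (n + 1) + lucas n

/-- The Fibonacci polynomials. -/
def fibo : ℕ → ℝ[X]
  | 0 => 0
  | 1 => 1
  | n + 2 => X * fibo (n + 1) + fibo n

lemma lucas_succ_eq (n : ℕ) : lucas (n + 1) = fibo (n + 2) + fibo n := by
  induction n using Nat.twoStepInduction with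
  | zero => simp [lucas, fibo]
  | one => simp [lucas, fibo]; ring
  | more n h1 h2 =>
    have e1 : lucas (n + 1 + 1 + 1) = X * lucas (n + 1 + 1) + lucas (n + 1) := rfl
    have e2 : fibo (n + 1 + 1 + 2) = X * fibo (n + 1 + 2) + fibo (n + 1 + 1) := rfl
    have e3 : fibo (n + 1 + 1) = X * fibo (n + 1) + fibo n := rfl
    have e4 : fibo (n + 2) = X * fibo (n + 1) + fibo n := rfl
    show lucas (n + 1 + 1 + 1) = fibo (n + 1 + 1 + 2) + fibo (n + 1 + 1)
    rw [e1, h2, h1, e2, e4]
    ring

lemma fibo_mul (n : ℕ) : (X ^ 2 + 4) * fibo (n + 1) = lucas (n + 2) + lucas n := by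
  induction n using Nat.twoStepInduction with
  | zero => simp [lucas, fibo]; ring
  | one => simp [lucas, fibo]; ring
  | more n h1 h2 =>
    have e1 : lucas (n + 1 + 1 + 2) = X * lucas (n + 1 + 2) + lucas (n + 2) := rfl
    have e2 : fibo (n + 1 + 1 + 1) = X * fibo (n + 1 + 1) + fibo (n + 1) := rfl
    have e3 : lucas (n + 1 + 1) = X * lucas (n + 1) + lucas n := rfl
    show (X ^ 2 + 4) * fibo (n + 1 + 1 + 1) = lucas (n + 1 + 1 + 2) + lucas (n + 1 + 1)
    rw [e2, e1]
    linear_combination X * h2 + h1 - e3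

lemma derivative_lucas_succ (n : ℕ) : derivative (lucas (n + 1)) = (n + 1 : ℝ[X]) * fibo (n + 1) := by
  induction n using Nat.twoStepInduction with
  | zero => simp [lucas, fibo]
  | one =>
    simp only [lucas, fibo, derivative_add, derivative_mul, derivative_X, derivative_ofNat]
    push_cast; ring
  | more n h1 h2 =>
    have e1 : lucas (n + 1 + 1 + 1) = X * lucas (n + 1 + 1) + lucas (n + 1) := rfl
    have e4 : fibo (n + 1 + 1 + 1) = X * fibo (n + 1 + 1) + fibo (n + 1) := rfl
    have e5 : lucas (n + 1 + 1) = fibo (n + 1 + 2) + fibo (n + 1) := lucas_succ_eq (n + 1)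
    have e6 : fibo (n + 1 + 2) = fibo (n + 1 + 1 + 1) := rfl
    show derivative (lucas (n + 1 + 1 + 1)) = _
    rw [e1, derivative_add, derivative_mul, derivative_X, h1, h2, e5, e6]
    push_cast
    rw [e4]
    ring

lemma ode_fibo (n : ℕ) : (X ^ 2 + 4) * derivative (fibo n) + X * fibo n = (n : ℝ[X]) * lucas n := by
  induction n using Nat.twoStepInduction with
  | zero => simp [lucas, fibo]
  | one => simp [lucas, fibo]
  | more n h1 h2 =>
    have e1 : fibo (n + 2) = X * fibo (n + 1) + fibo n := rfl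
    have e2 : lucas (n + 2) = X * lucas (n + 1) + lucas n := rfl
    have e3 := fibo_mul n
    rw [e1, derivative_add, derivative_mul, derivative_X]
    push_cast at *
    rw [e2] at e3 ⊢
    linear_combination X * h2 + h1 + e3

/-- The differential equation `(x²+4) y'' + x y' = n² y`. -/
lemma ode_lucas (n : ℕ) :
    (X ^ 2 + 4) * derivative (derivative (lucas n)) + X * derivative (lucas n)
      = (n : ℝ[X]) ^ 2 * lucas n := by
  cases n with
  | zero => simp [lucas]
  | succ n =>
    have h := ode_fibo (n + 1)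
    rw [derivative_lucas_succ, derivative_mul]
    have h0 : derivative (n + 1 : ℝ[X]) = 0 := by
      have : (n + 1 : ℝ[X]) = ((n + 1 : ℕ) : ℝ[X]) := by push_cast; ring
      rw [this, derivative_natCast]
    rw [h0]
    push_cast at *
    linear_combination (n + 1 : ℝ[X]) * h

lemma lucas_monic_natDegree (n : ℕ) :
    (lucas (n + 1)).Monic ∧ (lucas (n + 1)).natDegree = n + 1 := by
  induction n using Nat.twoStepInduction with
  | zero => simp [lucas, monic_X]
  | one =>
    have e : lucas (1 + 1) = X ^ 2 + C 2 := by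
      have h2 : (C (2 : ℝ) : ℝ[X]) = 2 := rfl
      rw [h2]; simp [lucas]; ring
    rw [e]
    exact ⟨monic_X_pow_add_C _ (by norm_num), natDegree_X_pow_add_C⟩
  | more n h1 h2 =>
    have e1 : lucas (n + 1 + 1 + 1) = X * lucas (n + 1 + 1) + lucas (n + 1) := rfl
    have hm : (X * lucas (n + 1 + 1)).Monic := monic_X.mul h2.1
    have hd : (X * lucas (n + 1 + 1)).natDegree = n + 1 + 1 + 1 := by
      rw [monic_X.natDegree_mul h2.1, h2.2, natDegree_X]; ring
    have hlt : (lucas (n + 1)).degree < (X * lucas (n + 1 + 1)).degree := by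
      rw [degree_eq_natDegree hm.ne_zero, degree_eq_natDegree h1.1.ne_zero, hd, h1.2]
      exact_mod_cast (by omega : n + 1 < n + 1 + 1 + 1)
    refine ⟨?_, ?_⟩
    · show (lucas (n + 1 + 1 + 1)).Monic
      rw [e1]; exact hm.add_of_left hlt
    · show (lucas (n + 1 + 1 + 1)).natDegree = _
      rw [e1, natDegree_add_eq_left_of_degree_lt hlt, hd]

lemma lucas_degree (n : ℕ) : (lucas n).degree = n := by
  cases n with
  | zero =>
    have : lucas 0 = C 2 := rfl
    rw [this]; exact degree_C (by norm_num)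
  | succ n =>
    obtain ⟨h1, h2⟩ := lucas_monic_natDegree n
    rw [degree_eq_natDegree h1.ne_zero, h2]

lemma admissible_lucas : Admissible lucas := by
  refine ⟨lucas_degree, 2, by norm_num, fun j => if j = 1 then X else X ^ 2 + C 4, ?_,
    fun k => -(k : ℝ) ^ 2, ?_⟩
  · simp only [OfNat.ofNat_ne_one, if_false]
    exact (monic_X_pow_add_C (4 : ℝ) (by norm_num)).ne_zero
  · intro k
    have h := ode_lucas k
    have hI : Finset.Icc 1 2 = {1, 2} := by decide
    rw [hI, Finset.sum_pair (by norm_num)]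
    simp only [if_true, OfNat.ofNat_ne_one, if_false, C_neg, C_pow,
      Function.iterate_succ, Function.comp, Function.iterate_zero, id]
    have h4 : (C (4 : ℝ) : ℝ[X]) = 4 := rfl
    have hk : (C (k : ℝ) : ℝ[X]) = (k : ℝ[X]) := by simp
    rw [h4, hk]
    linear_combination h

/-! ### Real-rootedness of some first order combinations -/

lemma im_div_real (z x : ℂ) (hx : x.im = 0) :
    (1 / (z - x)).im = -((1 / Complex.normSq (z - x)) * z.im) := by
  rw [one_div, Complex.inv_im]
  simp [hx]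
  ring

lemma im_sq_div_real (z x : ℂ) (hx : x.im = 0) (hz : z.im ≠ 0) :
    (z ^ 2 * (1 / (z - x))).im = (1 - x.re ^ 2 / Complex.normSq (z - x)) * z.im := by
  have hne : z - x ≠ 0 := by
    intro h
    apply hz
    have : (z - x).im = 0 := by rw [h]; simp
    simpa [hx] using this
  have e : z ^ 2 * (1 / (z - x)) = z + x + x ^ 2 * (1 / (z - x)) := by
    field_simp
    ring
  have hxr : x = (x.re : ℂ) := by
    apply Complex.ext <;> simp [hx]
  have e2 : (x ^ 2 * (1 / (z - x))).im = x.re ^ 2 * (1 / (z - x)).im := by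
    have : x ^ 2 = ((x.re ^ 2 : ℝ) : ℂ) := by rw [hxr]; simp
    rw [this, Complex.im_ofReal_mul]
  rw [e, Complex.add_im, Complex.add_im, hx, e2, im_div_real z x hx]
  ring

lemma im_sum (s : Multiset ℂ) (hs : ∀ x ∈ s, x.im = 0) (z : ℂ) :
    ∃ A : ℝ, 0 ≤ A ∧ ((s.map fun x => 1 / (z - x)).sum).im = -(A * z.im) := by
  induction s using Multiset.induction_on with
  | empty => exact ⟨0, le_refl 0, by simp⟩
  | cons a s ih =>
    obtain ⟨A, hA, h⟩ := ih (fun x hx => hs x (Multiset.mem_cons_of_mem hx))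
    refine ⟨1 / Complex.normSq (z - a) + A, ?_, ?_⟩
    · have := Complex.normSq_nonneg (z - a)
      positivity
    · rw [Multiset.map_cons, Multiset.sum_cons, Complex.add_im, h,
        im_div_real z a (hs a (Multiset.mem_cons_self a s))]
      ring

lemma im_sq_sum (s : Multiset ℂ) (hs : ∀ x ∈ s, x.im = 0) (z : ℂ) (hz : z.im ≠ 0) :
    ∃ A : ℝ, 0 ≤ A ∧
      (z ^ 2 * (s.map fun x => 1 / (z - x)).sum).im = ((Multiset.card s : ℝ) - A) * z.im := by
  induction s using Multiset.induction_on with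
  | empty => exact ⟨0, le_refl 0, by simp⟩
  | cons a s ih =>
    obtain ⟨A, hA, h⟩ := ih (fun x hx => hs x (Multiset.mem_cons_of_mem hx))
    refine ⟨a.re ^ 2 / Complex.normSq (z - a) + A, ?_, ?_⟩
    · have := Complex.normSq_nonneg (z - a)
      positivity
    · rw [Multiset.map_cons, Multiset.sum_cons, mul_add, Complex.add_im, h,
        im_sq_div_real z a (hs a (Multiset.mem_cons_self a s)) hz, Multiset.card_cons]
      push_cast
      ring

/-- The complex roots of `p`. -/
def croots (p : ℝ[X]) : Multiset ℂ := (p.map (algebraMap ℝ ℂ)).roots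

lemma RealRooted.ne_zero {p : ℝ[X]} (h : RealRooted p) : p ≠ 0 := by
  rintro rfl
  have := h Complex.I (by simp)
  simp at this

lemma croots_im {p : ℝ[X]} (h : RealRooted p) : ∀ x ∈ croots p, x.im = 0 := by
  intro x hx
  apply h
  have hx' := (mem_roots'.1 hx).2
  rwa [IsRoot, eval_map_algebraMap] at hx'

lemma card_croots (p : ℝ[X]) : Multiset.card (croots p) = p.natDegree := by
  have h := (IsAlgClosed.splits (p.map (algebraMap ℝ ℂ)))
  rw [croots, ← h.natDegree_eq_card_roots, natDegree_map]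

lemma logDeriv_eq {p : ℝ[X]} {z : ℂ} (hz : aeval z p ≠ 0) :
    aeval z (derivative p) = aeval z p * ((croots p).map fun x => 1 / (z - x)).sum := by
  have h := (IsAlgClosed.splits (p.map (algebraMap ℝ ℂ))).eval_derivative_eq_eval_mul_sum
    (x := z) (by rwa [eval_map_algebraMap])
  rwa [derivative_map, eval_map_algebraMap, eval_map_algebraMap] at h

/-- `α p + β x p'` has only real zeros if `p` has, for `α > 0`, `β ≥ 0`. -/
lemma realRooted_pos {p : ℝ[X]} (h : RealRooted p) {α β : ℝ} (hα : 0 < α) (hβ : 0 ≤ β) :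
    RealRooted (C α * p + C β * (X * derivative p)) := by
  intro z hz
  by_contra hzim
  have hp : aeval z p ≠ 0 := fun h0 => hzim (h z h0)
  simp only [map_add, map_mul, aeval_C, aeval_X, logDeriv_eq hp] at hz
  obtain ⟨A, hA, hAim⟩ := im_sum (croots p) (croots_im h) z
  set S := ((croots p).map fun x => 1 / (z - x)).sum with hS
  have hz0 : z ≠ 0 := by rintro rfl; simp at hzim
  have h1 : (α : ℂ) + β * (z * S) = 0 := by
    have : aeval z p * ((α : ℂ) + β * (z * S)) = 0 := by
      rw [← hz]; simp; ring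
    exact (mul_eq_zero.1 this).resolve_left hp
  -- multiply by conj z
  have h2 : (α : ℂ) * (starRingEnd ℂ) z + ((β * Complex.normSq z : ℝ) : ℂ) * S = 0 := by
    have : (Complex.normSq z : ℂ) = z * (starRingEnd ℂ) z := (Complex.mul_conj z).symm
    push_cast
    rw [this]
    linear_combination (starRingEnd ℂ) z * h1
  have h3 := congrArg Complex.im h2
  rw [Complex.add_im, Complex.im_ofReal_mul, Complex.im_ofReal_mul, Complex.conj_im, hAim,
    Complex.zero_im] at h3
  have h4 : (α + β * Complex.normSq z * A) * z.im = 0 := by linarith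
  rcases mul_eq_zero.1 h4 with h5 | h5
  · have := Complex.normSq_nonneg z
    have : 0 ≤ β * Complex.normSq z * A := by positivity
    linarith
  · exact hzim h5

/-- `α p - β x p'` has only real zeros if `p` has, for `β ≥ 0`, `α > β deg p`. -/
lemma realRooted_neg {p : ℝ[X]} (h : RealRooted p) {α β : ℝ} (hβ : 0 ≤ β)
    (hαβ : β * p.natDegree < α) :
    RealRooted (C α * p - C β * (X * derivative p)) := by
  intro z hz
  by_contra hzim
  have hp : aeval z p ≠ 0 := fun h0 => hzim (h z h0)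
  simp only [map_sub, map_mul, aeval_C, aeval_X, logDeriv_eq hp] at hz
  obtain ⟨A, hA, hAim⟩ := im_sq_sum (croots p) (croots_im h) z hzim
  rw [card_croots] at hAim
  set S := ((croots p).map fun x => 1 / (z - x)).sum with hS
  have h1 : (α : ℂ) - β * (z * S) = 0 := by
    have : aeval z p * ((α : ℂ) - β * (z * S)) = 0 := by
      rw [← hz]; simp; ring
    exact (mul_eq_zero.1 this).resolve_left hp
  have h2 : (α : ℂ) * z - (β : ℂ) * (z ^ 2 * S) = 0 := by
    linear_combination z * h1
  have h3 := congrArg Complex.im h2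
  rw [Complex.sub_im, Complex.im_ofReal_mul, Complex.im_ofReal_mul, hAim, Complex.zero_im] at h3
  have h4 : (α - β * p.natDegree + β * A) * z.im = 0 := by linarith
  rcases mul_eq_zero.1 h4 with h5 | h5
  · have : 0 ≤ β * A := by positivity
    linarith
  · exact hzim h5

/-- The lower bound `|p(z)| ≥ |lc p| |Im z|^deg p` for polynomials with only real zeros. -/
lemma norm_lower_bound {p : ℝ[X]} (h : RealRooted p) (z : ℂ) :
    |p.leadingCoeff| * |z.im| ^ p.natDegree ≤ ‖aeval z p‖ := by
  have hsp := IsAlgClosed.splits (p.map (algebraMap ℝ ℂ))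
  have e := hsp.eval_eq_prod_roots z
  rw [eval_map_algebraMap] at e
  rw [e, norm_mul, leadingCoeff_map, Complex.coe_algebraMap, Complex.norm_real, Real.norm_eq_abs]
  have key : ∀ s : Multiset ℂ, (∀ x ∈ s, x.im = 0) →
      |z.im| ^ Multiset.card s ≤ ‖(s.map fun x => z - x).prod‖ := by
    intro s
    induction s using Multiset.induction_on with
    | empty => simp
    | cons a s ih =>
      intro hs
      have h1 := ih (fun x hx => hs x (Multiset.mem_cons_of_mem hx))
      have h2 := hs a (Multiset.mem_cons_self a s)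
      rw [Multiset.card_cons, pow_succ', Multiset.map_cons, Multiset.prod_cons, norm_mul]
      have h3 : |z.im| ≤ ‖z - a‖ := by
        have := Complex.abs_im_le_norm (z - a)
        simpa [h2] using this
      exact mul_le_mul h3 h1 (by positivity) (by positivity)
  have h5 := key (croots p) (croots_im h)
  rw [card_croots] at h5
  exact mul_le_mul_of_nonneg_left h5 (abs_nonneg _)

/-! ### The substitution `x = w - 1/w` -/

lemma aeval_lucas (w : ℂ) (hw : w ≠ 0) (n : ℕ) :
    aeval (w - w⁻¹) (lucas n) = w ^ n + (-w⁻¹) ^ n := by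
  induction n using Nat.twoStepInduction with
  | zero =>
    have e0 : lucas 0 = 2 := rfl
    rw [e0, map_ofNat]; norm_num
  | one => simp [lucas]; ring
  | more n h1 h2 =>
    have e1 : lucas (n + 2) = X * lucas (n + 1) + lucas n := rfl
    rw [e1, map_add, map_mul, aeval_X, h1, h2]
    have hww : w * w⁻¹ = 1 := mul_inv_cancel₀ hw
    have e : (w - w⁻¹) * (w ^ (n + 1) + (-w⁻¹) ^ (n + 1)) + (w ^ n + (-w⁻¹) ^ n)
        = w ^ (n + 2) + (-w⁻¹) ^ (n + 2) - (w * w⁻¹ - 1) * w ^ n
          - (w * w⁻¹ - 1) * (-w⁻¹) ^ n := by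
      ring
    rw [e, hww]
    ring

/-- `x^n p(x - 1/x)` for `p = ∑_{k ≤ n} a_k γ_k L_k`. -/
def G (n : ℕ) (a γ : ℕ → ℝ) : ℝ[X] :=
  ∑ k ∈ Finset.range (n + 1), C (a k * γ k) * (X ^ (n + k) + C ((-1) ^ k) * X ^ (n - k))

/-- `∑_{k ≤ n} a_k γ_k L_k`. -/
def P (n : ℕ) (a γ : ℕ → ℝ) : ℝ[X] :=
  ∑ k ∈ Finset.range (n + 1), C (a k * γ k) * lucas k

lemma aeval_G (n : ℕ) (a γ : ℕ → ℝ) (w : ℂ) (hw : w ≠ 0) :
    aeval w (G n a γ) = w ^ n * aeval (w - w⁻¹) (P n a γ) := by
  simp only [G, P, map_sum, map_mul, map_add, map_pow, aeval_X, aeval_C, aeval_lucas w hw,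
    Finset.mul_sum]
  refine Finset.sum_congr rfl fun k hk => ?_
  have hk' : k ≤ n := by
    have := Finset.mem_range.1 hk; omega
  have e : w ^ n * (-w⁻¹) ^ k = (-1) ^ k * w ^ (n - k) := by
    rw [neg_pow, inv_pow]
    have : w ^ n = w ^ (n - k) * w ^ k := by rw [← pow_add]; congr 1; omega
    rw [this]
    have hwk : w ^ k ≠ 0 := pow_ne_zero _ hw
    field_simp
  simp only [Complex.coe_algebraMap]
  push_cast
  rw [pow_add]
  linear_combination (-(a k : ℂ) * (γ k)) * e

lemma realRooted_G_of {n : ℕ} {a γ : ℕ → ℝ} (h : RealRooted (P n a γ)) :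
    RealRooted (G n a γ) := by
  intro w h0
  by_cases hw : w = 0
  · rw [hw]; rfl
  rw [aeval_G n a γ w hw] at h0
  have h1 := h _ ((mul_eq_zero.1 h0).resolve_left (pow_ne_zero _ hw))
  rw [Complex.sub_im, Complex.inv_im] at h1
  have hpos : 0 < Complex.normSq w := Complex.normSq_pos.2 hw
  have h2 : w.im * (1 + 1 / Complex.normSq w) = 0 := by
    have : w.im - -w.im / Complex.normSq w = w.im * (1 + 1 / Complex.normSq w) := by ring
    rw [← this]; exact h1
  rcases mul_eq_zero.1 h2 with h3 | h3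
  · exact h3
  · have : 0 < 1 + 1 / Complex.normSq w := by positivity
    linarith

lemma realRooted_P_of {n : ℕ} {a γ : ℕ → ℝ} (h : RealRooted (G n a γ)) :
    RealRooted (P n a γ) := by
  intro z hz
  -- solve w - 1/w = z
  obtain ⟨w, hw⟩ : ∃ w : ℂ, w ^ 2 - z * w - 1 = 0 := by
    obtain ⟨s, hs⟩ := IsAlgClosed.exists_pow_nat_eq (z ^ 2 + 4) (show 0 < 2 by norm_num)
    refine ⟨(z + s) / 2, ?_⟩
    have : ((z + s) / 2) ^ 2 - z * ((z + s) / 2) - 1 = (s ^ 2 - (z ^ 2 + 4)) / 4 := by ring
    rw [this, hs]; ring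
  have hw0 : w ≠ 0 := by
    rintro rfl
    simp at hw
  have hwz : w - w⁻¹ = z := by
    field_simp
    linear_combination hw
  have h1 : aeval w (G n a γ) = 0 := by
    rw [aeval_G n a γ w hw0, hwz, hz, mul_zero]
  have h2 := h w h1
  rw [← hwz, Complex.sub_im, Complex.inv_im, h2]
  simp

lemma coeff_G {n : ℕ} (hn : 1 ≤ n) (a γ : ℕ → ℝ) : (G n a γ).coeff (2 * n) = a n * γ n := by
  unfold G
  rw [finsetSum_coeff, Finset.sum_eq_single n]
  · rw [coeff_C_mul, coeff_add, coeff_C_mul, coeff_X_pow, coeff_X_pow, if_pos (by omega),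
      if_neg (by omega)]
    ring
  · intro k hk hkn
    have : k < n + 1 := Finset.mem_range.1 hk
    rw [coeff_C_mul, coeff_add, coeff_C_mul, coeff_X_pow, coeff_X_pow, if_neg (by omega),
      if_neg (by omega)]
    ring
  · intro h
    exact absurd (Finset.mem_range.2 (by omega)) h

lemma natDegree_G_le (n : ℕ) (a γ : ℕ → ℝ) : (G n a γ).natDegree ≤ 2 * n := by
  unfold G
  refine natDegree_sum_le_of_forall_le _ _ fun k hk => ?_
  have hk' : k < n + 1 := Finset.mem_range.1 hk
  refine (natDegree_C_mul_le _ _).trans ((natDegree_add_le _ _).trans (max_le ?_ ?_))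
  · rw [natDegree_X_pow]; omega
  · refine (natDegree_C_mul_le _ _).trans ?_
    rw [natDegree_X_pow]; omega

lemma natDegree_G {n : ℕ} (hn : 1 ≤ n) {a γ : ℕ → ℝ} (ha : a n ≠ 0) (hγ : γ n ≠ 0) :
    (G n a γ).natDegree = 2 * n :=
  natDegree_eq_of_le_of_coeff_ne_zero (natDegree_G_le n a γ)
    (by rw [coeff_G hn]; exact mul_ne_zero ha hγ)

lemma X_mul_derivative_X_pow (m : ℕ) : (X : ℝ[X]) * derivative (X ^ m) = C (m : ℝ) * X ^ m := by
  rw [derivative_X_pow]
  cases m with
  | zero => simp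
  | succ m => rw [Nat.add_sub_cancel]; ring

/-- One multiplier step. -/
lemma step_G {n : ℕ} (a γ : ℕ → ℝ) {c : ℝ} (hc : 0 ≤ c) (hcn : c * n < 1)
    (h : RealRooted (G n a γ)) : RealRooted (G n a (fun k => (1 - c ^ 2 * (k : ℝ) ^ 2) * γ k)) := by
  have h1 : RealRooted (C (1 + c * n) * G n a γ - C c * (X * derivative (G n a γ))) := by
    refine realRooted_neg h hc ?_
    have h2 : ((G n a γ).natDegree : ℝ) ≤ 2 * n := by exact_mod_cast natDegree_G_le n a γ
    nlinarith
  have h3 := realRooted_pos h1 (α := 1 - c * n) (β := c) (by linarith) hc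
  convert h3 using 1
  have e1 : C (1 + c * n) * G n a γ - C c * (X * derivative (G n a γ))
      = ∑ k ∈ Finset.range (n + 1), C (a k * γ k) *
        (C (1 - c * k) * X ^ (n + k) + C ((-1) ^ k) * (C (1 + c * k) * X ^ (n - k))) := by
    unfold G
    rw [derivative_sum, Finset.mul_sum, Finset.mul_sum, Finset.mul_sum, ← Finset.sum_sub_distrib]
    refine Finset.sum_congr rfl fun k hk => ?_
    have hk' : k ≤ n := by have := Finset.mem_range.1 hk; omega
    have a1 := X_mul_derivative_X_pow (n + k)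
    have a2 := X_mul_derivative_X_pow (n - k)
    rw [Nat.cast_sub hk'] at a2
    simp only [derivative_C_mul, derivative_add]
    simp only [map_mul, map_add, map_sub, map_one, map_natCast, map_pow, map_neg, Nat.cast_add]
      at *
    linear_combination (-C c * C (a k) * C (γ k)) * a1
      - C c * C (a k) * C (γ k) * (-1) ^ k * a2
  rw [e1]
  rw [derivative_sum, Finset.mul_sum, Finset.mul_sum, Finset.mul_sum, ← Finset.sum_add_distrib]
  unfold G
  refine Finset.sum_congr rfl fun k hk => ?_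
  have hk' : k ≤ n := by have := Finset.mem_range.1 hk; omega
  have a1 := X_mul_derivative_X_pow (n + k)
  have a2 := X_mul_derivative_X_pow (n - k)
  rw [Nat.cast_sub hk'] at a2
  simp only [derivative_C_mul, derivative_add]
  simp only [map_mul, map_add, map_sub, map_one, map_natCast, map_pow, map_neg, Nat.cast_add]
    at *
  linear_combination (-C c * C (a k) * C (γ k) * (1 - C c * (k : ℝ[X]))) * a1
      - C c * C (a k) * C (γ k) * (-1) ^ k * (1 + C c * (k : ℝ[X])) * a2

lemma iterate_G {n : ℕ} (a : ℕ → ℝ) {c : ℝ} (hc : 0 ≤ c) (hcn : c * n < 1)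
    (h : RealRooted (G n a (fun _ => 1))) (m : ℕ) :
    RealRooted (G n a (fun k => (1 - c ^ 2 * (k : ℝ) ^ 2) ^ m)) := by
  induction m with
  | zero => simpa using h
  | succ m ih =>
    have := step_G a _ hc hcn ih
    simpa only [pow_succ'] using this

/-- The multiplier `exp (-t k²)` preserves real-rootedness in the Lucas basis. -/
lemma realRooted_G_exp {n : ℕ} (hn : 1 ≤ n) {a : ℕ → ℝ} (ha : a n ≠ 0) {t : ℝ} (ht : 0 < t)
    (h : RealRooted (G n a (fun _ => 1))) :
    RealRooted (G n a (fun k => Real.exp (-(t * (k : ℝ) ^ 2)))) := by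
  intro z hz
  by_contra hzim
  have hlim : ∀ k : ℕ, Tendsto (fun m : ℕ => (1 - t / m * (k : ℝ) ^ 2) ^ m) atTop
      (𝓝 (Real.exp (-(t * (k : ℝ) ^ 2)))) := by
    intro k
    have h1 := Real.tendsto_one_add_div_pow_exp (-(t * (k : ℝ) ^ 2))
    refine h1.congr fun m => ?_
    congr 1
    ring
  have hG : Tendsto (fun m : ℕ => aeval z (G n a (fun k => (1 - t / m * (k : ℝ) ^ 2) ^ m))) atTop
      (𝓝 (aeval z (G n a (fun k => Real.exp (-(t * (k : ℝ) ^ 2)))))) := by
    simp only [G, map_sum, map_mul, aeval_C]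
    refine tendsto_finsetSum _ fun k _ => ?_
    refine Tendsto.mul_const _ (Tendsto.const_mul _ ?_)
    exact (Complex.continuous_ofReal.tendsto _).comp (hlim k)
  have hG' := hG.norm
  rw [hz, norm_zero] at hG'
  have hL : Tendsto (fun m : ℕ => |a n * (1 - t / m * (n : ℝ) ^ 2) ^ m| * |z.im| ^ (2 * n)) atTop
      (𝓝 (|a n * Real.exp (-(t * (n : ℝ) ^ 2))| * |z.im| ^ (2 * n))) :=
    ((hlim n).const_mul (a n)).abs.mul_const _
  have hev : ∀ᶠ m : ℕ in atTop,
      |a n * (1 - t / m * (n : ℝ) ^ 2) ^ m| * |z.im| ^ (2 * n) ≤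
        ‖aeval z (G n a (fun k => (1 - t / m * (k : ℝ) ^ 2) ^ m))‖ := by
    filter_upwards [eventually_gt_atTop ⌈t * (n : ℝ) ^ 2⌉₊] with m hm
    have hm0 : 0 < m := lt_of_le_of_lt (Nat.zero_le _) hm
    have hm0' : (0 : ℝ) < m := by exact_mod_cast hm0
    have hm1 : t * (n : ℝ) ^ 2 < m :=
      lt_of_le_of_lt (Nat.le_ceil _) (by exact_mod_cast hm)
    have hc2 : (√(t / m)) ^ 2 = t / m := Real.sq_sqrt (by positivity)
    have hlt : t / m * (n : ℝ) ^ 2 < 1 := by
      rw [div_mul_eq_mul_div, div_lt_one hm0']; exact hm1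
    have hcn : √(t / m) * n < 1 := by
      have h0 : 0 ≤ √(t / m) * n := by positivity
      have h1 : (√(t / m) * n) ^ 2 < 1 := by rw [mul_pow, hc2]; exact hlt
      nlinarith
    have hr := iterate_G a (Real.sqrt_nonneg _) hcn h m
    rw [hc2] at hr
    have hb := norm_lower_bound hr z
    have hγ : (1 - t / m * (n : ℝ) ^ 2) ^ m ≠ 0 := pow_ne_zero _ (by linarith)
    have hd := natDegree_G hn (a := a) (γ := fun k => (1 - t / m * (k : ℝ) ^ 2) ^ m) ha hγ
    rw [hd] at hb
    have hlc : (G n a (fun k => (1 - t / m * (k : ℝ) ^ 2) ^ m)).leadingCoeff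
        = a n * (1 - t / m * (n : ℝ) ^ 2) ^ m := by
      rw [leadingCoeff, hd, coeff_G hn]
    rw [hlc] at hb
    exact hb
  have hle := le_of_tendsto_of_tendsto hL hG' hev
  have hpos : 0 < |a n * Real.exp (-(t * (n : ℝ) ^ 2))| * |z.im| ^ (2 * n) := by
    have h1 : a n * Real.exp (-(t * (n : ℝ) ^ 2)) ≠ 0 := mul_ne_zero ha (Real.exp_ne_zero _)
    have h2 := abs_pos.2 h1
    have h3 := abs_pos.2 hzim
    positivity
  linarith

/-! ### Expansion in the Lucas basis and the operator -/

lemma lucas_coeff_self (n : ℕ) : (lucas (n + 1)).coeff (n + 1) = 1 := by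
  obtain ⟨h1, h2⟩ := lucas_monic_natDegree n
  have := h1.coeff_natDegree
  rwa [h2] at this

lemma exists_expansion (n : ℕ) (p : ℝ[X]) (hp : p.natDegree ≤ n) :
    ∃ a : ℕ → ℝ, p = P n a (fun _ => 1) ∧ (1 ≤ n → a n = p.coeff n) := by
  induction n generalizing p with
  | zero =>
    refine ⟨fun _ => p.coeff 0 / 2, ?_, fun h => absurd h (by norm_num)⟩
    rw [eq_C_of_natDegree_le_zero hp]
    have h2 : lucas 0 = C 2 := rfl
    simp [P, h2, ← C_mul]
  | succ n ih =>
    set c := p.coeff (n + 1) with hc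
    obtain ⟨h1, h2⟩ := lucas_monic_natDegree n
    have hq : (p - C c * lucas (n + 1)).natDegree ≤ n := by
      have hle : (p - C c * lucas (n + 1)).natDegree ≤ n + 1 := by
        refine (natDegree_sub_le _ _).trans (max_le hp ?_)
        exact (natDegree_C_mul_le _ _).trans h2.le
      have hco : (p - C c * lucas (n + 1)).coeff (n + 1) = 0 := by
        rw [coeff_sub, coeff_C_mul, lucas_coeff_self, hc]; ring
      by_contra hcon
      have heq : (p - C c * lucas (n + 1)).natDegree = n + 1 := by omega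
      have hne : p - C c * lucas (n + 1) ≠ 0 := by
        intro h0; rw [h0] at heq; simp at heq
      have := leadingCoeff_ne_zero.2 hne
      rw [leadingCoeff, heq] at this
      exact this hco
    obtain ⟨a, ha, -⟩ := ih _ hq
    refine ⟨fun k => if k = n + 1 then c else a k, ?_, fun _ => by simp⟩
    have e : P (n + 1) (fun k => if k = n + 1 then c else a k) (fun _ => 1)
        = P n a (fun _ => 1) + C c * lucas (n + 1) := by
      unfold P
      rw [Finset.sum_range_succ]
      congr 1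
      · refine Finset.sum_congr rfl fun k hk => ?_
        have : k ≠ n + 1 := by have := Finset.mem_range.1 hk; omega
        simp [this]
      · simp
    rw [e, ← ha]
    ring

/-- The Lucas polynomials as a sequence of polynomials of degrees `0, 1, 2, …`. -/
def lucasSeq : Polynomial.Sequence ℝ where
  elems' := lucas
  degree_eq' := lucas_degree

lemma lucasSeq_unit (i : ℕ) : IsUnit (lucasSeq i).leadingCoeff :=
  isUnit_iff_ne_zero.2 (leadingCoeff_ne_zero.2 (lucasSeq.ne_zero i))

/-- The operator with `T L_k = exp (-t k²) L_k`. -/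
def T (t : ℝ) : ℝ[X] →ₗ[ℝ] ℝ[X] :=
  (lucasSeq.basis lucasSeq_unit).constr ℝ (fun k => Real.exp (-(t * (k : ℝ) ^ 2)) • lucas k)

lemma T_lucas (t : ℝ) (k : ℕ) : T t (lucas k) = Real.exp (-(t * (k : ℝ) ^ 2)) • lucas k := by
  have h := (lucasSeq.basis lucasSeq_unit).constr_basis ℝ
    (fun k => Real.exp (-(t * (k : ℝ) ^ 2)) • lucas k) k
  rw [Polynomial.Sequence.basis_eq_self] at h
  exact h

lemma T_P (t : ℝ) (n : ℕ) (a : ℕ → ℝ) :
    T t (P n a (fun _ => 1)) = P n a (fun k => Real.exp (-(t * (k : ℝ) ^ 2))) := by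
  unfold P
  rw [map_sum]
  refine Finset.sum_congr rfl fun k _ => ?_
  rw [← smul_eq_C_mul, map_smul, T_lucas, smul_smul, ← smul_eq_C_mul, mul_one]

lemma T_hyperbolicityPreserver {t : ℝ} (ht : 0 < t) : HyperbolicityPreserver (T t) := by
  intro p hp
  obtain ⟨a, ha, han⟩ := exists_expansion p.natDegree p le_rfl
  rcases Nat.eq_zero_or_pos p.natDegree with h0 | hpos
  · -- constants
    intro z hz
    exfalso
    rw [h0] at ha
    rw [ha, T_P] at hz
    have hne : p ≠ 0 := hp.ne_zero
    have h2 : lucas 0 = C 2 := rfl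
    simp only [P, h2, zero_add, Finset.range_one, Finset.sum_singleton, map_mul, aeval_C] at hz
    have ha0 : a 0 ≠ 0 := by
      intro h
      apply hne
      rw [ha]
      simp [P, h]
    simp [ha0] at hz
  · have hlc : a p.natDegree ≠ 0 := by
      rw [han hpos]
      exact leadingCoeff_ne_zero.2 hp.ne_zero
    have h1 : RealRooted (P p.natDegree a (fun _ => 1)) := by rwa [← ha]
    have h2 := realRooted_P_of (realRooted_G_exp hpos hlc ht (realRooted_G_of h1))
    rw [← T_P, ← ha] at h2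
    exact h2

/-! ### The coefficient polynomials -/

lemma iterate_derivative_X_pow_eq (n k : ℕ) :
    derivative^[k] ((X : ℝ[X]) ^ n) = C ((n.descFactorial k : ℕ) : ℝ) * X ^ (n - k) := by
  rw [iterate_derivative_X_pow_eq_smul, ← smul_eq_C_mul]

/-- The coefficient polynomials of an operator, defined recursively. -/
def coeffPoly (T : ℝ[X] →ₗ[ℝ] ℝ[X]) (n : ℕ) : ℝ[X] :=
  C (1 / (n.factorial : ℝ)) * (T (X ^ n) - ∑ k : Fin n, coeffPoly T k * derivative^[k] (X ^ n))
termination_by n
decreasing_by exact k.2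

lemma coeffPoly_spec (T : ℝ[X] →ₗ[ℝ] ℝ[X]) (n : ℕ) :
    T (X ^ n) = ∑ k ∈ Finset.range (n + 1), coeffPoly T k * derivative^[k] (X ^ n) := by
  rw [Finset.sum_range_succ, iterate_derivative_X_pow_eq n n, Nat.descFactorial_self,
    Nat.sub_self, pow_zero, mul_one]
  have hf : (n.factorial : ℝ) ≠ 0 := by exact_mod_cast n.factorial_ne_zero
  have h : coeffPoly T n * C (n.factorial : ℝ)
      = T (X ^ n) - ∑ k : Fin n, coeffPoly T k * derivative^[k] (X ^ n) := by
    conv_lhs => rw [coeffPoly]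
    rw [mul_comm, ← mul_assoc, ← C_mul, mul_one_div_cancel hf, C_1, one_mul]
  rw [h, Finset.sum_range]
  ring

lemma represents_coeffPoly (T : ℝ[X] →ₗ[ℝ] ℝ[X]) : Represents (coeffPoly T) T := by
  intro p
  conv_lhs => rw [p.as_sum_range_C_mul_X_pow]
  rw [map_sum]
  have h1 : ∀ k ∈ Finset.range (p.natDegree + 1), coeffPoly T k * derivative^[k] p
      = ∑ m ∈ Finset.range (p.natDegree + 1),
        C (p.coeff m) * (coeffPoly T k * derivative^[k] (X ^ m)) := by
    intro k _
    conv_lhs => rw [p.as_sum_range_C_mul_X_pow]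
    rw [iterate_derivative_sum, Finset.mul_sum]
    refine Finset.sum_congr rfl fun m _ => ?_
    rw [iterate_derivative_C_mul]
    ring
  rw [Finset.sum_congr rfl h1, Finset.sum_comm]
  refine Finset.sum_congr rfl fun m hm => ?_
  have hm' : m ≤ p.natDegree := by have := Finset.mem_range.1 hm; omega
  rw [← smul_eq_C_mul, map_smul, smul_eq_C_mul, coeffPoly_spec T m, ← Finset.mul_sum]
  congr 1
  refine Finset.sum_subset ?_ ?_
  · intro k hk
    simp only [Finset.mem_range] at *
    omega
  · intro k _ hk2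
    simp only [Finset.mem_range, not_lt] at hk2
    rw [iterate_derivative_X_pow_eq, Nat.descFactorial_of_lt (by omega)]
    simp

/-- The coefficient polynomials are unique. -/
lemma Represents.unique {T : ℝ[X] →ₗ[ℝ] ℝ[X]} {Q Q' : ℕ → ℝ[X]} (h : Represents Q T)
    (h' : Represents Q' T) : Q = Q' := by
  funext n
  induction n using Nat.strong_induction_on with
  | _ n ih =>
    have h1 := h (X ^ n)
    rw [h' (X ^ n)] at h1
    simp only [natDegree_X_pow] at h1
    rw [Finset.sum_range_succ, Finset.sum_range_succ] at h1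
    have h2 : ∑ k ∈ Finset.range n, Q' k * derivative^[k] (X ^ n)
        = ∑ k ∈ Finset.range n, Q k * derivative^[k] (X ^ n) :=
      Finset.sum_congr rfl fun k hk => by rw [ih k (Finset.mem_range.1 hk)]
    rw [h2] at h1
    have h3 := add_left_cancel h1
    rw [iterate_derivative_X_pow_eq n n, Nat.descFactorial_self, Nat.sub_self, pow_zero,
      mul_one] at h3
    have hf : (C (n.factorial : ℝ) : ℝ[X]) ≠ 0 := by
      rw [Ne, C_eq_zero]; exact_mod_cast n.factorial_ne_zero
    exact (mul_right_cancel₀ hf h3).symm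

/-! ### Infinite order -/

lemma coeff_T_X_pow (t : ℝ) (n : ℕ) (hn : 1 ≤ n) :
    (T t (X ^ n)).coeff n = Real.exp (-(t * (n : ℝ) ^ 2)) := by
  obtain ⟨a, ha, han⟩ := exists_expansion n (X ^ n) (by rw [natDegree_X_pow])
  have han' := han hn
  rw [coeff_X_pow_self] at han'
  rw [ha, T_P]
  unfold P
  rw [finsetSum_coeff, Finset.sum_eq_single n]
  · obtain ⟨m, rfl⟩ : ∃ m, n = m + 1 := ⟨n - 1, by omega⟩
    rw [coeff_C_mul, lucas_coeff_self, han', one_mul, mul_one]
  · intro k hk hkn
    have hk' : k < n + 1 := Finset.mem_range.1 hk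
    rw [coeff_C_mul, coeff_eq_zero_of_degree_lt, mul_zero]
    rw [lucas_degree]
    exact_mod_cast (by omega : k < n)
  · intro h
    exact absurd (Finset.mem_range.2 (by omega)) h

lemma infiniteOrder_of_represents {t : ℝ} (ht : 0 < t) {Q : ℕ → ℝ[X]} (hQ : Represents Q (T t)) :
    InfiniteOrder Q := by
  intro hfin
  obtain ⟨K, hK⟩ := hfin.bddAbove
  have hK' : ∀ k, K + 1 ≤ k → Q k = 0 := by
    intro k hk
    by_contra hne
    have : k ≤ K := hK hne
    omega
  -- the eigenvalues would be given by a polynomial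
  set F : ℝ[X] := ∑ k ∈ Finset.range (K + 1), C ((Q k).coeff k) * descPochhammer ℝ k with hF
  have hval : ∀ n : ℕ, K + 1 ≤ n → F.eval (n : ℝ) = Real.exp (-(t * (n : ℝ) ^ 2)) := by
    intro n hn
    rw [← coeff_T_X_pow t n (by omega), hQ (X ^ n), natDegree_X_pow, finsetSum_coeff, hF,
      eval_finsetSum]
    have hsub : Finset.range (K + 1) ⊆ Finset.range (n + 1) := by
      intro k hk
      simp only [Finset.mem_range] at *
      omega
    rw [← Finset.sum_subset hsub]
    · refine Finset.sum_congr rfl fun k hk => ?_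
      have hk' : k < K + 1 := Finset.mem_range.1 hk
      rw [eval_mul, eval_C, descPochhammer_eval_eq_descFactorial, iterate_derivative_X_pow_eq]
      have e : Q k * (C ((n.descFactorial k : ℕ) : ℝ) * X ^ (n - k))
          = C ((n.descFactorial k : ℕ) : ℝ) * (Q k * X ^ (n - k)) := by ring
      rw [e, coeff_C_mul]
      have e2 : (Q k * X ^ (n - k)).coeff n = (Q k).coeff k := by
        conv_lhs => rw [show n = k + (n - k) by omega]
        rw [show (k + (n - k)) - k = n - k by omega, coeff_mul_X_pow]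
      rw [e2]
      ring
    · intro k _ hk2
      simp only [Finset.mem_range, not_lt] at hk2
      rw [hK' k hk2]
      simp
  have hexp : Tendsto (fun n : ℕ => Real.exp (-(t * (n : ℝ) ^ 2))) atTop (𝓝 0) := by
    refine Real.tendsto_exp_neg_atTop_nhds_zero.comp ?_
    refine Tendsto.const_mul_atTop ht ?_
    exact (tendsto_pow_atTop (by norm_num)).comp tendsto_natCast_atTop_atTop
  have hFlim : Tendsto (fun n : ℕ => F.eval (n : ℝ)) atTop (𝓝 0) :=
    hexp.congr' (by filter_upwards [eventually_ge_atTop (K + 1)] with n hn; exact (hval n hn).symm)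
  rcases lt_or_ge 0 F.degree with hdeg | hdeg
  · have h1 := (F.abs_tendsto_atTop hdeg).comp (tendsto_natCast_atTop_atTop (R := ℝ))
    have h2 := hFlim.abs
    rw [abs_zero] at h2
    exact not_tendsto_nhds_of_tendsto_atTop h1 0 h2
  · rw [eq_C_of_degree_le_zero hdeg] at hFlim hval
    simp only [eval_C] at hFlim hval
    have h3 : F.coeff 0 = 0 := tendsto_nhds_unique tendsto_const_nhds hFlim
    have h4 := hval (K + 1) le_rfl
    rw [h3] at h4
    exact (Real.exp_ne_zero _) h4.symm

/-! ### The first three coefficient polynomials -/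

lemma T_one (t : ℝ) : T t 1 = 1 := by
  have h := T_lucas t 0
  have h2 : lucas 0 = (2 : ℝ) • 1 := by
    show (2 : ℝ[X]) = (2 : ℝ) • 1
    rw [smul_eq_C_mul, mul_one]; rfl
  rw [h2, map_smul] at h
  simp only [Nat.cast_zero, ne_eq, OfNat.ofNat_ne_zero, not_false_eq_true, zero_pow, mul_zero,
    neg_zero, Real.exp_zero, one_smul] at h
  exact smul_right_injective _ (two_ne_zero) h

lemma T_X (t : ℝ) : T t X = C (Real.exp (-t)) * X := by
  have h := T_lucas t 1
  have h2 : lucas 1 = X := rfl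
  rw [h2, smul_eq_C_mul] at h
  simpa using h

lemma T_X_sq (t : ℝ) : T t (X ^ 2) = C (Real.exp (-t) ^ 4) * (X ^ 2 + 2) - 2 := by
  have h := T_lucas t 2
  have h2 : lucas 2 = X ^ 2 + (2 : ℝ) • 1 := by
    have : lucas 2 = X * X + 2 := rfl
    rw [this, smul_eq_C_mul, mul_one]
    have : (C (2 : ℝ) : ℝ[X]) = 2 := rfl
    rw [this]; ring
  have h3 : Real.exp (-(t * ((2 : ℕ) : ℝ) ^ 2)) = Real.exp (-t) ^ 4 := by
    rw [← Real.exp_nat_mul]; congr 1; push_cast; ring
  rw [h2, h3, map_add, map_smul, T_one, smul_eq_C_mul, smul_eq_C_mul, mul_one] at h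
  have : (C (2 : ℝ) : ℝ[X]) = 2 := rfl
  rw [this] at h
  linear_combination h

/-- The final answer: there are an admissible basis `B` (the Lucas polynomials, which are
eigenfunctions of `(x²+4) D² + x D` with eigenvalues `k²`) and a hyperbolicity preserver `T` of
infinite order, diagonal with respect to `B` with positive and pairwise distinct eigenvalues
(in particular bijective), with `T = ∑ Q_k D^k` and `Q_1, Q_2 ≠ 0`, `deg Q_2 < deg Q_1`; hence `T`
is not monotone. -/
theorem result :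
    ∃ (B : ℕ → ℝ[X]) (γ : ℕ → ℝ) (T : ℝ[X] →ₗ[ℝ] ℝ[X]) (Q : ℕ → ℝ[X]),
      Admissible B ∧ DiagonalWith B γ T ∧ (∀ k, 0 < γ k) ∧ Function.Injective γ ∧
      HyperbolicityPreserver T ∧ Represents Q T ∧ InfiniteOrder Q ∧ ¬ IsMonotone Q ∧
      Q 1 ≠ 0 ∧ Q 2 ≠ 0 ∧ (Q 2).degree < (Q 1).degree := by
  -- the root of `q³ + q² + q = 1`
  obtain ⟨q, ⟨hq0, hq1⟩, hq⟩ : ∃ q ∈ Set.Ioo (0 : ℝ) 1, q ^ 3 + q ^ 2 + q = 1 := by
    have hc : ContinuousOn (fun q : ℝ => q ^ 3 + q ^ 2 + q) (Set.Icc 0 1) := by fun_prop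
    have := intermediate_value_Ioo (by norm_num) hc
    obtain ⟨q, hq, h⟩ := this (show (1 : ℝ) ∈ Set.Ioo _ _ by norm_num)
    exact ⟨q, hq, h⟩
  set t := -Real.log q with ht
  have htpos : 0 < t := by
    rw [ht]; have := Real.log_neg hq0 hq1; linarith
  have het : Real.exp (-t) = q := by rw [ht, neg_neg, Real.exp_log hq0]
  have hQ := represents_coeffPoly (T t)
  have h0 : coeffPoly (T t) 0 = 1 := by
    have := hQ 1
    rw [T_one] at this
    simpa using this.symm
  have h1 : coeffPoly (T t) 1 = C (q - 1) * X := by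
    have := hQ X
    rw [T_X, het, natDegree_X, Finset.sum_range_succ, Finset.sum_range_one, h0] at this
    simp only [Function.iterate_zero, id, Function.iterate_one, derivative_X, one_mul,
      mul_one] at this
    rw [C_sub, C_1]
    linear_combination -this
  have h2 : coeffPoly (T t) 2 = C (q ^ 4 - 1) := by
    have := hQ (X ^ 2)
    rw [T_X_sq, het, natDegree_X_pow, Finset.sum_range_succ, Finset.sum_range_succ,
      Finset.sum_range_one, h0, h1] at this
    simp only [iterate_derivative_X_pow_eq] at this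
    simp only [Nat.descFactorial, Nat.cast_one, map_one, one_mul, mul_one,
      Nat.succ_sub_succ_eq_sub, Nat.cast_ofNat, pow_zero, tsub_zero] at this
    have hq4 : q ^ 4 = 2 * q - 1 := by linear_combination (q - 1) * hq
    have hC2 : (C (2 : ℝ) : ℝ[X]) = 2 := rfl
    have h4 : (C (q ^ 4) : ℝ[X]) = 2 * C q - 1 := by
      rw [hq4, C_sub, C_mul, C_1, hC2]
    rw [h4] at this
    rw [C_sub, h4, C_1]
    rw [C_sub, C_1] at this
    rw [hC2] at this
    have h5 : (2 : ℝ[X]) * (coeffPoly (T t) 2 - (2 * C q - 1 - 1)) = 0 := by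
      linear_combination -this
    have h6 := (mul_eq_zero.1 h5).resolve_left two_ne_zero
    linear_combination h6
  have hne1 : coeffPoly (T t) 1 ≠ 0 := by
    rw [h1]
    exact mul_ne_zero (by rw [Ne, C_eq_zero]; linarith) X_ne_zero
  have hq4 : q ^ 4 - 1 ≠ 0 := by
    have : q ^ 4 < 1 := pow_lt_one₀ hq0.le hq1 (by norm_num)
    linarith
  have hne2 : coeffPoly (T t) 2 ≠ 0 := by
    rw [h2, Ne, C_eq_zero]; exact hq4
  have hdeg : (coeffPoly (T t) 2).degree < (coeffPoly (T t) 1).degree := by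
    rw [h1, h2, degree_C hq4, degree_C_mul (by linarith), degree_X]
    norm_num
  refine ⟨lucas, fun k => Real.exp (-(t * (k : ℝ) ^ 2)), T t, coeffPoly (T t), admissible_lucas,
    T_lucas t, fun k => Real.exp_pos _, ?_, T_hyperbolicityPreserver htpos, hQ,
    infiniteOrder_of_represents htpos hQ, ?_, hne1, hne2, hdeg⟩
  · intro k l hkl
    have h3 := Real.exp_injective hkl
    have h4 : (k : ℝ) ^ 2 = (l : ℝ) ^ 2 := by
      have h5 : t * ((k : ℝ) ^ 2) = t * ((l : ℝ) ^ 2) := neg_injective h3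
      exact mul_left_cancel₀ htpos.ne' h5
    have h5 : k ^ 2 = l ^ 2 := by exact_mod_cast h4
    exact Nat.pow_left_injective (by norm_num) h5
  · intro hmono
    exact absurd (hmono 1 hne1) (not_le.2 hdeg)

end

end Pool.Agent.Results.MP_f79668_an.LucasCounterexample
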